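import Pool.Agent.N582.BSEasy

/-!
# The complexity of equations in one variable over the solvable Baumslag–Solitar groups

For `|β| ≥ 2` the problem is NP-complete, for `|β| ≤ 1` it is in P. The lower bound is the hand-in
`NPHard`.

For the upper bound let `x = t^(-i) a^j t^(i+k)` be a solution of `w(x) = 1` with `k ≥ 0` (for
`k < 0` one exchanges `x` and `x⁻¹`). The equation says that
`P(β^k) j + β^i Q(β^k) = 0` for two polynomials `P`, `Q` with integer coefficients, which depend on
the word, and that the exponent sum of `t` vanishes.

* If `k` is at most a polynomial in the length of the word, there is a solution with the same `k` and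
  with `i` and the number of digits of `j` bounded by a polynomial.
* If `k` is larger and `P ≠ 0`, then pseudo-division of `Q` by `P`, together with the growth of
  polynomials and the fact that `P(β^k)` has only a small common divisor with `β^k`, show that the
  remainder is zero: `D X^v Q = S P` with `D` an integer and `S` a polynomial with integer
  coefficients, all of polynomial size. Then only the congruence
  `β^m S(β^k) ≡ 0` modulo `D` is left, which depends on `β^k` modulo `D` only. So one may assume that
  `k ≤ D`, and `k`, `D`, `v`, `S` are the certificate; the identity `D X^v Q = S P` is verified at one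
  large power of `β`, and the congruence with fast exponentiation.
-/

set_option autoImplicit false

namespace Pool.Agent.Results.MP_1ebeae_al.Dichotomy

open Pool.Agent.NPC Pool.Agent.N582.BS

/-- The single one-variable equation problem of the Baumslag–Solitar group
`BS(1, β) = ⟨a, t | t a t⁻¹ = aᵝ⟩` is in P if `|β| ≤ 1`, and it is NP-complete if `|β| ≥ 2`. -/
theorem result (β : ℤ) :
    (|β| ≤ 1 → InPP (OneVarEq (relBS β 0))) ∧
    (2 ≤ |β| → InNPP (OneVarEq (relBS β 0)) ∧ NPHardP (OneVarEq (relBS β 0))) :=
  ⟨fun h => inP h, fun h => ⟨inNP h, hard_BS h 0⟩⟩

end Pool.Agent.Results.MP_1ebeae_al.Dichotomy
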