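import Pool.Agent.N582.BSPoly

/-!
# Single equations in one variable over Baumslag–Solitar groups `BS(1, β)` are NP-hard

The reduction is from 3-colourability; the vertices of the graph are primes `p`. Let `x` be the
unknown, let `k` be its exponent sum in `t`, and let `B = β²`. The constraint of a vertex `p` says
that `k` is `0`, `1` or `2` modulo `p` (the colour of `p`), the constraint of an edge `(p, q)` says
that `k` is not `0`, `1` or `2` modulo `pq`.

* Conjugation by `x²` multiplies the exponent of `a` by `B ^ k`, so that for each polynomial `E`
  there is a word in `a`, `t`, `x` with value `a ^ E (B ^ k)`.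
* The constraints are expressed as congruences `E (B ^ k) ≡ 0` modulo pairwise coprime numbers all
  of whose prime factors `r` are such that the order of `B` modulo `r` is `p` (for a vertex) or `pq`
  (for an edge).
* The congruences are combined by the Chinese remainder theorem to one congruence modulo the
  product `N` of the moduli, and the commutator of `t²` and `x` is `a ^ ((B - 1) s)` if
  `x = a ^ s t ^ k`. So one equation says that the congruence is true.
* For the soundness one uses the actions of `BS(1, β)` on the fields `ZMod r`.
-/

set_option autoImplicit false

namespace Pool.Agent.Results.MP_1ebeae_al.NPHard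

open Pool.Agent.NPC Pool.Agent.N582.BS

/-- Let `|β| ≥ 2`. The single one-variable equation problem is NP-hard for each one-relator group
which has the Baumslag–Solitar group `BS(1, β)` as a retract; in particular, it is NP-hard for
`BS(1, β)` and for its free product with a free group of rank `m`, for each `m`. -/
theorem result :
    (∀ (β : ℤ), 2 ≤ |β| → ∀ (n : ℕ) (r : FreeGroup (Fin n)) (ι : BS1 β →* OneRel r)
      (ρ : OneRel r →* BS1 β), ρ.comp ι = MonoidHom.id (BS1 β) → NPHardP (OneVarEq r)) ∧
    ∀ (β : ℤ), 2 ≤ |β| → ∀ m : ℕ, NPHardP (OneVarEq (relBS β m)) :=
  ⟨fun _ hβ _ r ι ρ h => hard hβ r ι ρ h, fun _ hβ m => hard_BS hβ m⟩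

end Pool.Agent.Results.MP_1ebeae_al.NPHard
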